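import Pool.Agent.helper6.EV.Spec

set_option autoImplicit false

namespace Pool.Agent.EV

open N1f72dd46 Filter MeasureTheory Complex Metric Pool.Agent.helper6.LD

theorem I1 : I1_stmt := by
  classical
  intro n
  have hG : G n = ((Finset.Icc 1 n).powerset.filter (IsAdmissible n)).sup (fun S => S.sum id) := by
    unfold G
    congr
  have hne : ((Finset.Icc 1 n).powerset.filter (IsAdmissible n)).Nonempty := by
    refine ⟨∅, ?_⟩
    rw [Finset.mem_filter]
    refine ⟨Finset.empty_mem_powerset _, Finset.empty_subset _, ?_⟩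
    simp
  constructor
  · obtain ⟨S, hS, hS2⟩ := Finset.exists_mem_eq_sup _ hne (fun S : Finset ℕ => S.sum id)
    refine ⟨S, (Finset.mem_filter.1 hS).2, ?_⟩
    rw [hG, hS2]
    rfl
  · intro S hS
    rw [hG]
    have hmem : S ∈ (Finset.Icc 1 n).powerset.filter (IsAdmissible n) := by
      rw [Finset.mem_filter, Finset.mem_powerset]
      exact ⟨hS.1, hS⟩
    exact Finset.le_sup (f := fun S : Finset ℕ => S.sum id) hmem

end Pool.Agent.EV
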