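import Pool.Agent.helper6.EV.Spec

set_option autoImplicit false

namespace Pool.Agent.EV

open N1f72dd46 Filter MeasureTheory Complex Metric Pool.Agent.helper6.LD

theorem I6 : I6_stmt := by
  rintro ⟨o, ho, h⟩
  refine ⟨1 / 4, by norm_num, ?_⟩
  have h1 : ∀ᶠ n : ℕ in atTop, ‖o n‖ ≤ 1 / 4 * ‖(1 : ℕ → ℝ) n‖ :=
    ho.bound (by norm_num : (0 : ℝ) < 1 / 4)
  filter_upwards [h, h1, eventually_ge_atTop 1] with n hn hn1 hn2
  have h2 : (1 : ℝ) ≤ n := by exact_mod_cast hn2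
  have h3 : o n ≤ 1 / 4 := by
    rw [Pi.one_apply, norm_one, mul_one, Real.norm_eq_abs] at hn1
    exact le_trans (le_abs_self _) hn1
  have h4 : (n : ℝ) ^ (1 + o n) ≤ (n : ℝ) ^ (3 / 2 - 1 / 4 : ℝ) :=
    Real.rpow_le_rpow_of_exponent_le h2 (by linarith)
  linarith

end Pool.Agent.EV
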