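import Pool.Agent.helper6.EV.Spec

set_option autoImplicit false

namespace Pool.Agent.EV

open N1f72dd46 Filter MeasureTheory Complex Metric Pool.Agent.helper6.LD

theorem LE : LE_stmt := by
  intro t η ρ hη hη1 hρ h
  have h0 : 0 ≤ ‖s4 t - ρ‖ := norm_nonneg _
  have h1 : ‖s4 t - ρ‖ ^ 2 = (4 - ρ.re) ^ 2 + (t - ρ.im) ^ 2 := by
    rw [Complex.sq_norm, Complex.normSq_apply]
    simp [s4]
    ring
  have h2 : ‖ρ - ((1 : ℝ) + t * I)‖ ^ 2 = (ρ.re - 1) ^ 2 + (ρ.im - t) ^ 2 := by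
    rw [Complex.sq_norm, Complex.normSq_apply]
    simp
    ring
  have h3 : ‖s4 t - ρ‖ ^ 2 ≤ (3 * (1 + η)) ^ 2 := pow_le_pow_left₀ h0 h 2
  rw [h1] at h3
  have h4 : ‖ρ - ((1 : ℝ) + t * I)‖ ^ 2 ≤ (6 * Real.sqrt η) ^ 2 := by
    rw [h2, mul_pow, Real.sq_sqrt hη.le]
    nlinarith
  exact le_of_sq_le_sq h4 (by positivity)

end Pool.Agent.EV
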