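import Pool.Agent.helper6.EV.Spec

set_option autoImplicit false

namespace Pool.Agent.EV

open N1f72dd46 Filter MeasureTheory Complex Metric Pool.Agent.helper6.LD

theorem CA_aux (δ L v ε E : ℝ) (hL : 4 ≤ L) (hδ : 0 < δ) (hδ1 : δ ≤ 1) (hε0 : 0 < ε)
    (hε1 : ε ≤ δ / 5) (hv1 : δ ≤ v) (hvL : v ≤ L / 16) (hexp : 1 + 2 * v ≤ E) :
    (1 + ε) * (L + v) ≤ E * (1 - ε) * (L - v - ε) := by
  have hv0 : 0 < v := lt_of_lt_of_le hδ hv1
  have hε2 : ε ≤ 1 / 5 := by linarith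
  have hpos : 0 ≤ (1 - ε) * (L - v - ε) := by
    apply mul_nonneg
    · linarith
    · linarith
  have h1 : (1 + 2 * v) * ((1 - ε) * (L - v - ε)) ≤ E * ((1 - ε) * (L - v - ε)) :=
    mul_le_mul_of_nonneg_right hexp hpos
  have h2 : (1 + ε) * (L + v) ≤ (1 + 2 * v) * ((1 - ε) * (L - v - ε)) := by
    have e2 : 0 ≤ v * (L - 2 - 2 * v) := mul_nonneg hv0.le (by linarith)
    have e3 : 0 ≤ (1 - ε) * (v * (L - 2 - 2 * v)) := mul_nonneg (by linarith) e2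
    have e4 : 0 ≤ (v - 5 * ε) * L := mul_nonneg (by linarith) (by linarith)
    have e5 : 0 ≤ ε * (L - 16 * v) := mul_nonneg hε0.le (by linarith)
    have e6 : 0 ≤ ε * (L - 4) := mul_nonneg hε0.le (by linarith)
    have e7 : 0 ≤ ε * ε * (1 + 2 * v) := by positivity
    have e8 : 0 ≤ (1 / 5 - ε) * (v * L) := mul_nonneg (by linarith) (by
      apply mul_nonneg hv0.le
      linarith)
    have e9 : 0 ≤ v * L := mul_nonneg hv0.le (by linarith)
    nlinarith [e2, e3, e4, e5, e6, e7, e8, e9]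
  calc (1 + ε) * (L + v) ≤ (1 + 2 * v) * ((1 - ε) * (L - v - ε)) := h2
    _ ≤ E * ((1 - ε) * (L - v - ε)) := h1
    _ = E * (1 - ε) * (L - v - ε) := by ring

theorem CA : CA_stmt := by
  intro κ C0 hκ hκ' hC0
  refine ⟨max (Real.exp 4) ((5 * C0) ^ (1 / κ)), ?_, ?_⟩
  · exact le_trans (Real.one_le_exp (by norm_num)) (le_max_left _ _)
  intro X v hX hv1 hv2
  have hXe : Real.exp 4 ≤ X := le_trans (le_max_left _ _) hX
  have hXpos : 0 < X := lt_of_lt_of_le (Real.exp_pos 4) hXe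
  have hX1 : 1 ≤ X := le_trans (Real.one_le_exp (by norm_num)) hXe
  have hL : 4 ≤ Real.log X := (Real.le_log_iff_exp_le hXpos).2 hXe
  have hXk : 5 * C0 ≤ X ^ κ := by
    have h1 : ((5 * C0) ^ (1 / κ)) ^ κ ≤ X ^ κ :=
      Real.rpow_le_rpow (by positivity) (le_trans (le_max_right _ _) hX) hκ.le
    rwa [← Real.rpow_mul (by positivity), one_div_mul_cancel hκ.ne', Real.rpow_one] at h1
  have hX2 : X ^ (-(2 * κ)) = X ^ (-κ) * X ^ (-κ) := by
    rw [← Real.rpow_add hXpos]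
    congr 1
    ring
  have hδ : 0 < X ^ (-κ) := Real.rpow_pos_of_pos hXpos _
  have hδ1 : X ^ (-κ) ≤ 1 := Real.rpow_le_one_of_one_le_of_nonpos hX1 (by linarith)
  have hδκ : X ^ κ * X ^ (-κ) = 1 := by
    rw [← Real.rpow_add hXpos, add_neg_cancel, Real.rpow_zero]
  have hCδ : C0 * X ^ (-κ) ≤ 1 / 5 := by
    have h1 : 5 * C0 * X ^ (-κ) ≤ X ^ κ * X ^ (-κ) := mul_le_mul_of_nonneg_right hXk hδ.le
    rw [hδκ] at h1
    linarith
  have hε1 : C0 * X ^ (-(2 * κ)) ≤ X ^ (-κ) / 5 := by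
    rw [hX2]
    have h1 : C0 * (X ^ (-κ) * X ^ (-κ)) = (C0 * X ^ (-κ)) * X ^ (-κ) := by ring
    rw [h1]
    have h2 : (C0 * X ^ (-κ)) * X ^ (-κ) ≤ 1 / 5 * X ^ (-κ) :=
      mul_le_mul_of_nonneg_right hCδ hδ.le
    linarith
  have hε0 : 0 < C0 * X ^ (-(2 * κ)) := mul_pos hC0 (Real.rpow_pos_of_pos hXpos _)
  have hvL : v ≤ Real.log X / 16 := by
    have h1 : κ * Real.log X ≤ 1 / 16 * Real.log X :=
      mul_le_mul_of_nonneg_right hκ' (by linarith)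
    linarith
  have hexp : 1 + 2 * v ≤ Real.exp (2 * v) := by
    have h1 := Real.add_one_le_exp (2 * v)
    linarith
  exact CA_aux (X ^ (-κ)) (Real.log X) v (C0 * X ^ (-(2 * κ))) (Real.exp (2 * v)) hL hδ hδ1 hε0
    hε1 hv1 hvL hexp

end Pool.Agent.EV
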